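import Pool.Agent.H13.Kob.ExpFinal

/-!
# Exponential sums on general hypersurfaces of degree `d ≥ 2n+1`

For `n ≥ 1`, `d ≥ 2n+1` and all `k`, `D`: outside a proper Zariski-closed set of degree-`d` forms
`F` in `n+2` variables, every curve `g = ∑_{j<k} e^{φ_j} q_j` with `φ_j` entire and `q_j` vectors of
polynomials (of arbitrary degree) which lies in the cone `{F = 0}` is a scalar entire function times
a vector of polynomials, and a scalar entire function times a constant vector if the `q_j` have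
degree at most `D`.
-/

namespace Pool.Agent.Results.MP_b509a1_ag.ExponentialSums

theorem result :
    ∀ n : ℕ, 1 ≤ n → ∀ d : ℕ, 2 * n + 1 ≤ d → ∀ k D : ℕ,
      ∃ P : MvPolynomial ((Fin (n + 2)) →₀ ℕ) ℂ,
        (∃ F₀ : MvPolynomial (Fin (n + 2)) ℂ, F₀.IsHomogeneous d ∧
            MvPolynomial.eval (fun m => F₀.coeff m) P ≠ 0) ∧
        ∀ F : MvPolynomial (Fin (n + 2)) ℂ, F.IsHomogeneous d →
          MvPolynomial.eval (fun m => F.coeff m) P ≠ 0 →
          ∀ (φ : Fin k → ℂ → ℂ) (q : Fin k → Fin (n + 2) → Polynomial ℂ) (g : ℂ → Fin (n + 2) → ℂ),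
            (∀ j, Differentiable ℂ (φ j)) →
            (∀ z i, g z i = ∑ j, Complex.exp (φ j z) * (q j i).eval z) →
            (∀ z, MvPolynomial.eval (g z) F = 0) →
            (∃ (s : ℂ → ℂ) (r : Fin (n + 2) → Polynomial ℂ), Differentiable ℂ s ∧
              ∀ z i, g z i = s z * (r i).eval z) ∧
            ((∀ j i, (q j i).natDegree ≤ D) →
              ∃ (s : ℂ → ℂ) (c : Fin (n + 2) → ℂ), Differentiable ℂ s ∧
                ∀ z i, g z i = s z * c i) := by
  intro n hn d hd k D
  obtain ⟨e₀, he₀⟩ := Pool.Agent.H13.Kob.exists_bounded_type k d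
  have hthin := Pool.Agent.H13.CEV.bounded_curves (N := n + 2) (d := d) (by omega) (by omega)
    (max e₀ D)
  obtain ⟨P, hP0, hP⟩ := Pool.Agent.H13.Kob.exists_open hthin
  refine ⟨P, hP0, fun F hF hFP φ q g hφ hg hgF => ?_⟩
  have hgood : Pool.Agent.H13.Kob.Good (max e₀ D)
      (fun m : Pool.Agent.H13.Kob.mons (n + 2) d => F.coeff m.1) := by
    intro v hv i j a b
    by_contra hne
    exact hP F hF hFP ⟨v, hv, i, j, a, b, hne⟩
  have hFm := Pool.Agent.H13.Kob.eq_Fm hF
  have hge : ∀ z, g z = fun i => ∑ j, Complex.exp (φ j z) * (q j i).eval z :=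
    fun z => funext (hg z)
  have h := Pool.Agent.H13.Kob.expsum hgood
    (fun a => by
      obtain ⟨b, hb1, hb2⟩ := he₀ a
      exact ⟨b, hb1, fun j => (hb2 j).trans (le_max_left _ _)⟩)
    φ hφ q (fun z => by
      rw [← hFm, ← hge]
      exact hgF z)
  simp only [← hg] at h
  exact ⟨h.1, fun hD => h.2 fun j i => (hD j i).trans (le_max_right _ _)⟩

end Pool.Agent.Results.MP_b509a1_ag.ExponentialSums
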